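import Mathlib
import Pool.Agent.P.MP_f12eed_co.Upper

/-!
For the path with two edges and `n = 8` the global parameter `p` exceeds the host-graph
parameter `s`.
-/

namespace Pool.Agent.Results.MP_f12eed_co.PathEight

/-- `f` is `G`-blocking on `H`: no subgraph of `H` isomorphic to `G` is `f`-exclusive. -/
def Blocking {k n : ℕ} (G : SimpleGraph (Fin k)) (H : SimpleGraph (Fin n))
    (f : H.edgeSet → H.edgeSet) : Prop :=
  ¬ ∃ G' : H.Subgraph, Nonempty (G ≃g G'.coe) ∧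
    ∀ e : H.edgeSet, e.1 ∈ G'.edgeSet → ∀ v ∈ G'.verts, v ∉ (f e).1

/-- The host-graph parameter `s(n, G)`. -/
noncomputable def sNum (n : ℕ) {k : ℕ} (G : SimpleGraph (Fin k)) : ℕ :=
  sSup {m : ℕ | ∃ H : SimpleGraph (Fin n), H.edgeSet.ncard = m ∧
    ∃ f : H.edgeSet → H.edgeSet, (∀ e : H.edgeSet, ∀ v ∈ e.1, v ∉ (f e).1) ∧ Blocking G H f}

/-- The global parameter `p(n, G)`. -/
noncomputable def pNum (n : ℕ) {k : ℕ} (G : SimpleGraph (Fin k)) : ℕ :=
  sSup {m : ℕ | m ≤ n.choose 2 ∧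
    ∃ f : (⊤ : SimpleGraph (Fin n)).edgeSet → (⊤ : SimpleGraph (Fin n)).edgeSet,
      m ≤ {e : (⊤ : SimpleGraph (Fin n)).edgeSet | ∀ v ∈ e.1, v ∉ (f e).1}.ncard ∧
      Blocking G ⊤ f}

open Pool.Agent.P.MP_f12eed_co

theorem sNum_le : sNum 8 (SimpleGraph.pathGraph 3) ≤ 13 := by
  apply csSup_le'
  rintro m ⟨H, rfl, f, hf, hb⟩
  by_contra hlt
  refine hits_false H (fun e c => ∃ he : e ∈ H.edgeSet, c ∈ (f ⟨e, he⟩).1) ⟨?_, ?_, ?_⟩
    (by omega)
  · intro u v w huw h1 h2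
    by_contra hn
    rw [not_or] at hn
    have hu : u ∉ (f ⟨s(v, w), h2⟩).1 := fun h => hn.2 ⟨h2, h⟩
    have hw : w ∉ (f ⟨s(u, v), h1⟩).1 := fun h => hn.1 ⟨h1, h⟩
    have huv := h1.ne
    have hvw := h2.ne
    let φ : SimpleGraph.pathGraph 3 →g H :=
      ⟨![u, v, w], by
        intro a b hab
        rw [SimpleGraph.pathGraph_adj] at hab
        fin_cases a <;> fin_cases b <;> simp_all [H.adj_comm]⟩
    have hφ : Function.Injective φ := by
      intro a b hab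
      have hab' : ![u, v, w] a = ![u, v, w] b := hab
      fin_cases a <;> fin_cases b <;> simp_all
    let c : (SimpleGraph.pathGraph 3).Copy H := ⟨φ, hφ⟩
    refine hb ⟨c.toSubgraph, ⟨c.isoToSubgraph⟩, ?_⟩
    rintro ⟨e, he⟩ hmem z hz
    have hz' : z = u ∨ z = v ∨ z = w := by
      obtain ⟨a, -, rfl⟩ := hz
      have : c.toHom a = ![u, v, w] a := rfl
      rw [this]
      fin_cases a <;> simp
    have he' : e = s(u, v) ∨ e = s(v, w) := by
      simp only [SimpleGraph.Subgraph.edgeSet_map, SimpleGraph.Subgraph.edgeSet_top,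
        Set.mem_image] at hmem
      obtain ⟨e0, he0, rfl⟩ := hmem
      induction e0 using Sym2.ind with
      | h a b =>
        rw [SimpleGraph.mem_edgeSet, SimpleGraph.pathGraph_adj] at he0
        have : Sym2.map c.toHom s(a, b) = s(![u, v, w] a, ![u, v, w] b) := rfl
        rw [this]
        fin_cases a <;> fin_cases b <;> simp_all
    rcases he' with rfl | rfl
    · rcases hz' with rfl | rfl | rfl
      · exact hf ⟨_, he⟩ _ (Sym2.mem_mk_left _ _)
      · exact hf ⟨_, he⟩ _ (Sym2.mem_mk_right _ _)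
      · exact hw
    · rcases hz' with rfl | rfl | rfl
      · exact hu
      · exact hf ⟨_, he⟩ _ (Sym2.mem_mk_left _ _)
      · exact hf ⟨_, he⟩ _ (Sym2.mem_mk_right _ _)
  · rintro e a b c hab hac hbc ⟨he, ha⟩ ⟨_, hb⟩ ⟨_, hc⟩
    have := (Sym2.mem_and_mem_iff hab).1 ⟨ha, hb⟩
    rw [this, Sym2.mem_iff] at hc
    rcases hc with h | h
    · exact hac h.symm
    · exact hbc h.symm
  · rintro e a b hab ⟨he, ha⟩ ⟨_, hb⟩
    have := (Sym2.mem_and_mem_iff hab).1 ⟨ha, hb⟩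
    have h2 := (f ⟨e, he⟩).2
    rwa [this] at h2

/-- The table of the edge map; pairs not listed are fixed. -/
def tab : List ((Fin 8 × Fin 8) × (Fin 8 × Fin 8)) :=
  [((0, 1), (3, 4)), ((0, 2), (1, 4)), ((0, 3), (2, 4)), ((0, 4), (5, 6)), ((1, 2), (0, 5)),
    ((1, 3), (0, 2)), ((1, 5), (0, 3)), ((2, 3), (0, 1)), ((4, 5), (1, 7)), ((4, 6), (5, 7)),
    ((4, 7), (0, 5)), ((5, 6), (1, 4)), ((5, 7), (1, 6)), ((6, 7), (4, 5))]

/-- The image of a pair. -/
def im (a b : Fin 8) : Fin 8 × Fin 8 := (tab.lookup (min a b, max a b)).getD (min a b, max a b)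

/-- The edge map on unordered pairs. -/
def fm : Sym2 (Fin 8) → Sym2 (Fin 8) :=
  Sym2.lift ⟨fun a b => s((im a b).1, (im a b).2), fun a b => by
    simp only [im, min_comm a b, max_comm a b]⟩

theorem le_pNum : 14 ≤ pNum 8 (SimpleGraph.pathGraph 3) := by
  have hne : ∀ a b : Fin 8, a ≠ b → (im a b).1 ≠ (im a b).2 := by decide +kernel
  have hmem : ∀ e ∈ (⊤ : SimpleGraph (Fin 8)).edgeSet,
      fm e ∈ (⊤ : SimpleGraph (Fin 8)).edgeSet := by
    intro e he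
    induction e using Sym2.ind with
    | h a b => exact hne a b he
  let f : (⊤ : SimpleGraph (Fin 8)).edgeSet → (⊤ : SimpleGraph (Fin 8)).edgeSet :=
    fun e => ⟨fm e.1, hmem e.1 e.2⟩
  refine le_csSup ⟨Nat.choose 8 2, fun m hm => hm.1⟩ ⟨by decide, f, ?_, ?_⟩
  · let S : Finset (Sym2 (Fin 8)) := (tab.map fun q => s(q.1.1, q.1.2)).toFinset
    have hS : S.card = 14 := by decide +kernel
    rw [← hS, ← Set.ncard_coe_finset, ← Set.ncard_image_of_injective _ Subtype.val_injective]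
    refine Set.ncard_le_ncard ?_ (Set.toFinite _)
    intro e he
    simp only [S, List.coe_toFinset, List.mem_map, Set.mem_ofPred_eq] at he
    obtain ⟨q, hq, rfl⟩ := he
    have key0 : ∀ a b : Fin 8, (a, b) ∈ tab.map Prod.fst → a ≠ b ∧ ∀ v : Fin 8, v = a ∨ v = b →
        ¬ (v = (im a b).1 ∨ v = (im a b).2) := by decide +kernel
    have key := fun q (hq : q ∈ tab) => key0 q.1.1 q.1.2 (List.mem_map_of_mem hq)
    refine ⟨⟨_, (key q hq).1⟩, ?_, rfl⟩
    intro v hv hv'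
    exact (key q hq).2 v (Sym2.mem_iff.1 hv) (Sym2.mem_iff.1 hv')
  · rintro ⟨G', ⟨φ⟩, h⟩
    have a1 : G'.Adj (φ 0) (φ 1) := φ.map_adj_iff.2 (by simp [SimpleGraph.pathGraph_adj])
    have a2 : G'.Adj (φ 1) (φ 2) := φ.map_adj_iff.2 (by simp [SimpleGraph.pathGraph_adj])
    have n02 : (φ 0).1 ≠ (φ 2).1 := fun h => by
      have := φ.injective (Subtype.ext h)
      simp at this
    have key : ∀ u v w : Fin 8, u ≠ w → u ≠ v → v ≠ w →
        (∃ z, (z = u ∨ z = v ∨ z = w) ∧ (z = (im u v).1 ∨ z = (im u v).2)) ∨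
        (∃ z, (z = u ∨ z = v ∨ z = w) ∧ (z = (im v w).1 ∨ z = (im v w).2)) := by decide +kernel
    have hv : ∀ z, (z = (φ 0).1 ∨ z = (φ 1).1 ∨ z = (φ 2).1) → z ∈ G'.verts := by
      rintro z (rfl | rfl | rfl)
      · exact (φ 0).2
      · exact (φ 1).2
      · exact (φ 2).2
    rcases key _ _ _ n02 a1.ne a2.ne with ⟨z, hz, hz'⟩ | ⟨z, hz, hz'⟩
    · exact h ⟨s((φ 0).1, (φ 1).1), a1.adj_sub⟩ a1 z (hv z hz) (Sym2.mem_iff.2 hz')
    · exact h ⟨s((φ 1).1, (φ 2).1), a2.adj_sub⟩ a2 z (hv z hz) (Sym2.mem_iff.2 hz')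

theorem result : sNum 8 (SimpleGraph.pathGraph 3) < pNum 8 (SimpleGraph.pathGraph 3) :=
  lt_of_le_of_lt sNum_le (lt_of_lt_of_le (by norm_num) le_pNum)

end Pool.Agent.Results.MP_f12eed_co.PathEight
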